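import Pool.Agent.K4H52.FC.Core

set_option autoImplicit false

namespace Pool.Agent.K4H52.FC

/-- multiples of `12` -/
lemma good12 (j : ℤ) : Good (12 * j) := by
  rcases eq_or_ne j 0 with rfl | hj
  · exact ⟨3, 4, 5, -6, by norm_num, by norm_num, by decide +kernel, by norm_num⟩
  · have h := ns1 (D := 63 * j ^ 2 + 1) (T := 6 * j) (by omega) (by nlinarith [sq_nonneg j])
    have e : -(((2 * j + 42 * j ^ 2 + 1) + (-8 * j + 21 * j ^ 2)) *
        ((2 * j - 42 * j ^ 2 - 1) + (-8 * j - 21 * j ^ 2))) =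
        (63 * j ^ 2 + 1) ^ 2 - (6 * j) ^ 2 := by ring
    refine ⟨2 * j + 42 * j ^ 2 + 1, -8 * j + 21 * j ^ 2, 2 * j - 42 * j ^ 2 - 1,
      -8 * j - 21 * j ^ 2, by ring, by rw [e]; exact h.1, by rw [e]; exact h.2, ?_⟩
    left
    intro hc
    have : (3 * j + 1) * (7 * j + 1) = 0 := by linear_combination hc
    rcases mul_eq_zero.mp this with h | h <;> omega

/-- odd multiples of `6` -/
lemma good6 (k : ℤ) : Good (6 * (2 * k + 1)) := by
  obtain ⟨τ, hτ⟩ : ∃ τ : ℤ, k * (k + 1) = 2 * τ := by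
    rcases Int.even_mul_succ_self k with ⟨t, ht⟩
    exact ⟨t, by rw [ht]; ring⟩
  have hn : 8 * τ + 1 = (2 * k + 1) ^ 2 := by linear_combination (-4) * hτ
  set n := 2 * k + 1 with hn'
  have hn0 : n ≠ 0 := by omega
  have hτ0 : 0 ≤ τ := by nlinarith [sq_nonneg n, sq_nonneg k, sq_nonneg (k + 1)]
  have h := ns1 (D := 63 * τ + 8) (T := 3 * n) (by omega) (by nlinarith)
  have e : -(((4 * n + (-2 - 21 * τ)) + (-n + (-6 - 42 * τ))) *
      ((4 * n - (-2 - 21 * τ)) + (-n - (-6 - 42 * τ)))) =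
      (63 * τ + 8) ^ 2 - (3 * n) ^ 2 := by ring
  refine ⟨4 * n + (-2 - 21 * τ), -n + (-6 - 42 * τ), 4 * n - (-2 - 21 * τ),
    -n - (-6 - 42 * τ), ?_, by rw [e]; exact h.1, by rw [e]; exact h.2, ?_⟩
  · linear_combination (-126 * n) * hn
  · by_contra hc
    push_neg at hc
    obtain ⟨h1, h2⟩ := hc
    apply hn0
    linarith

/-- `6 n + 3` -/
lemma good3 (n : ℤ) : Good (6 * n + 3) := by
  by_cases h2 : n = 2
  · subst h2
    exact ⟨-12, -10, -1, 14, by norm_num, by norm_num, by decide +kernel, by norm_num⟩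
  by_cases h3 : n = 3
  · subst h3
    exact ⟨-5, -5, -9, 10, by norm_num, by norm_num, by decide +kernel, by norm_num⟩
  have h := ns (P := n + (2 * n - 5)) (Q := (-n + 4) + (-2 * n + 4)) (by ring_nf; norm_num) (by
    ring_nf
    rcases le_total 0 (n * 6 - 13) with h | h
    · have : |-13 + n * 6| = n * 6 - 13 := by rw [abs_of_nonneg (by linarith)]; ring
      rw [this]; omega
    · have : |-13 + n * 6| = -(n * 6 - 13) := by rw [abs_of_nonpos (by linarith)]; ring
      rw [this]; omega)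
  exact ⟨n, 2 * n - 5, -n + 4, -2 * n + 4, by ring, h.1, h.2, by omega⟩

/-- `18 n + 1` -/
lemma good1 (n : ℤ) : Good (18 * n + 1) := by
  by_cases h2 : n = -8
  · subst h2
    exact Good.neg (m := 143) ⟨-6, -3, -7, 9, by norm_num, by norm_num, by decide +kernel,
      by norm_num⟩
  by_cases h3 : n = -9
  · subst h3
    exact Good.neg (m := 161) ⟨-4, 1, 2, 6, by norm_num, by norm_num, by decide +kernel,
      by norm_num⟩
  by_cases h4 : n = -10
  · subst h4
    exact Good.neg (m := 179) ⟨-6, -5, 2, 8, by norm_num, by norm_num, by decide +kernel,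
      by norm_num⟩
  have h := ns (P := (2 * n + 14) + (3 * n + 30)) (Q := (-2 * n - 23) + (-3 * n - 26))
    (by ring_nf; norm_num) (by
    ring_nf
    rcases le_total 0 (n * 10 + 93) with h | h
    · have : |93 + n * 10| = n * 10 + 93 := by rw [abs_of_nonneg (by linarith)]; ring
      rw [this]; omega
    · have : |93 + n * 10| = -(n * 10 + 93) := by rw [abs_of_nonpos (by linarith)]; ring
      rw [this]; omega)
  exact ⟨2 * n + 14, 3 * n + 30, -2 * n - 23, -3 * n - 26, by ring, h.1, h.2, by omega⟩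

lemma ns_even {P Q D T : ℤ} (h1 : P + Q = 2 * T) (h2 : P - Q = 2 * D) (hT : T ≠ 0)
    (h : T ^ 2 + 1 < 2 * |D|) : 0 < -(P * Q) ∧ ¬ IsSquare (-(P * Q)) := by
  have h := ns1 (D := |D|) hT h
  have e : |D| ^ 2 - T ^ 2 = -(P * Q) := by
    rw [sq_abs]
    have hP : P = T + D := by linarith
    have hQ : Q = T - D := by linarith
    rw [hP, hQ]; ring
  rwa [e] at h

/-- `18 n + 8` -/
lemma good8 (n : ℤ) : Good (18 * n + 8) := by
  by_cases h2 : n = 8
  · subst h2
    exact ⟨-6, -4, 6, 6, by norm_num, by norm_num, by decide +kernel, by norm_num⟩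
  by_cases h3 : n = 9
  · subst h3
    exact ⟨-6, -6, -9, 11, by norm_num, by norm_num, by decide +kernel, by norm_num⟩
  by_cases h4 : n = 10
  · subst h4
    exact ⟨-6, -4, 5, 7, by norm_num, by norm_num, by decide +kernel, by norm_num⟩
  by_cases h5 : n = 11
  · subst h5
    exact ⟨-6, -5, -13, 14, by norm_num, by norm_num, by decide +kernel, by norm_num⟩
  have h := ns_even (P := (n - 5) + (3 * n - 30)) (Q := (-n + 14) + (-3 * n + 29))
    (D := 4 * n - 39) (T := 4) (by ring) (by ring) (by norm_num) (by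
    rcases le_total 0 (4 * n - 39) with h | h
    · rw [abs_of_nonneg h]; omega
    · rw [abs_of_nonpos h]; omega)
  exact ⟨n - 5, 3 * n - 30, -n + 14, -3 * n + 29, by ring, h.1, h.2, by omega⟩

/-- `54 n + 20` -/
lemma good20 (n : ℤ) : Good (54 * n + 20) := by
  by_cases h2 : n = 2
  · subst h2
    exact ⟨-6, -5, -12, 13, by norm_num, by norm_num, by decide +kernel, by norm_num⟩
  by_cases h3 : n = 3
  · subst h3
    exact ⟨-6, 1, -11, 12, by norm_num, by norm_num, by decide +kernel, by norm_num⟩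
  by_cases h4 : n = 4
  · subst h4
    exact ⟨-3, -2, -9, 10, by norm_num, by norm_num, by decide +kernel, by norm_num⟩
  by_cases h5 : n = 5
  · subst h5
    exact ⟨-6, -5, -14, 15, by norm_num, by norm_num, by decide +kernel, by norm_num⟩
  have h := ns_even (P := (3 * n - 11) + (n + 2)) (Q := (-3 * n + 10) + (-n + 7))
    (D := 4 * n - 13) (T := 4) (by ring) (by ring) (by norm_num) (by
    rcases le_total 0 (4 * n - 13) with h | h
    · rw [abs_of_nonneg h]; omega
    · rw [abs_of_nonpos h]; omega)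
  exact ⟨3 * n - 11, n + 2, -3 * n + 10, -n + 7, by ring, h.1, h.2, by omega⟩

/-- `18 n + 7` -/
lemma good7 (n : ℤ) : Good (18 * n + 7) := by
  rcases lt_trichotomy n 0 with hn | hn | hn
  · -- `n < 0`
    have e : -(((n + 2) + (6 * n - 1)) * ((8 * n - 2) + (-9 * n + 2))) = n * (7 * n + 1) := by ring
    refine ⟨n + 2, 6 * n - 1, 8 * n - 2, -9 * n + 2, by ring, ?_, ?_, by omega⟩
    · rw [e]; nlinarith
    · rw [e]
      rintro ⟨r, hr⟩
      have hco : IsCoprime n (7 * n + 1) := ⟨-7, 1, by ring⟩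
      obtain ⟨u, hu⟩ := Int.sq_of_isCoprime hco (c := r) (by rw [hr]; ring)
      obtain ⟨v, hv⟩ := Int.sq_of_isCoprime hco.symm (c := r) (by rw [mul_comm, hr]; ring)
      have hu' : n = -u ^ 2 := by
        rcases hu with hu | hu
        · nlinarith [sq_nonneg u]
        · exact hu
      have hv' : 7 * n + 1 = -v ^ 2 := by
        rcases hv with hv | hv
        · nlinarith [sq_nonneg v]
        · exact hv
      have h7 : v ^ 2 % 7 = 6 := by omega
      have : v % 7 = 0 ∨ v % 7 = 1 ∨ v % 7 = 2 ∨ v % 7 = 3 ∨ v % 7 = 4 ∨ v % 7 = 5 ∨ v % 7 = 6 := by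
        omega
      rcases this with h | h | h | h | h | h | h <;> simp [pow_two, Int.mul_emod, h] at h7
  · subst hn
    exact ⟨-6, -3, 5, 5, by norm_num, by norm_num, by decide +kernel, by norm_num⟩
  · have e : -(((n + 2) + (8 * n - 2)) * ((6 * n - 1) + (-9 * n + 2))) =
        9 * (n * (3 * n - 1)) := by ring
    refine ⟨n + 2, 8 * n - 2, 6 * n - 1, -9 * n + 2, by ring, ?_, ?_, by omega⟩
    · rw [e]; nlinarith
    · rw [e]
      rintro ⟨r, hr⟩
      have h3 : (3 : ℤ) ∣ r := by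
        have : (3 : ℤ) ∣ r * r := ⟨3 * (n * (3 * n - 1)), by rw [← hr]; ring⟩
        exact (Int.prime_three.dvd_mul.mp this).elim id id
      obtain ⟨ρ, rfl⟩ := h3
      have hr' : n * (3 * n - 1) = ρ ^ 2 := by nlinarith
      have hco : IsCoprime n (3 * n - 1) := ⟨3, -1, by ring⟩
      obtain ⟨v, hv⟩ := Int.sq_of_isCoprime hco.symm (c := ρ) (by rw [mul_comm, hr'])
      have hv' : 3 * n - 1 = v ^ 2 := by
        rcases hv with hv | hv
        · exact hv
        · nlinarith [sq_nonneg v]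
      have h3 : v ^ 2 % 3 = 2 := by omega
      have : v % 3 = 0 ∨ v % 3 = 1 ∨ v % 3 = 2 := by omega
      rcases this with h | h | h <;> simp [pow_two, Int.mul_emod, h] at h3

/-- `54 n + 2` -/
lemma good2 (n : ℤ) : Good (54 * n + 2) := by
  have h := ns1 (D := 39312 * n ^ 2 + 2912 * n + 55) (T := 216 * n + 8) (by omega)
    (by nlinarith [sq_nonneg (27 * n + 1), sq_nonneg n])
  have e : -(((29484 * n ^ 2 + 2211 * n + 43) + (9828 * n ^ 2 + 485 * n + 4)) *
      ((-29484 * n ^ 2 - 2157 * n - 41) + (-9828 * n ^ 2 - 971 * n - 22))) =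
      (39312 * n ^ 2 + 2912 * n + 55) ^ 2 - (216 * n + 8) ^ 2 := by ring
  refine ⟨29484 * n ^ 2 + 2211 * n + 43, 9828 * n ^ 2 + 485 * n + 4,
    -29484 * n ^ 2 - 2157 * n - 41, -9828 * n ^ 2 - 971 * n - 22, by ring, by rw [e]; exact h.1,
    by rw [e]; exact h.2, ?_⟩
  left
  intro hc
  nlinarith [sq_nonneg (44 * n + 2), sq_nonneg n]

/-- `216 n - 16` -/
lemma good16 (n : ℤ) : Good (216 * n - 16) := by
  have h := ns1' (D := 19656 * n ^ 2 - 2912 * n + 110) (T := -216 * n + 16)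
    (by nlinarith [sq_nonneg (27 * n - 2), sq_nonneg n]) (by
      have : n ≤ 0 ∨ 1 ≤ n := by omega
      rcases this with h | h <;> nlinarith)
    (by nlinarith [sq_nonneg (27 * n - 2), sq_nonneg n])
  have e : -(((14742 * n ^ 2 - 2157 * n + 82) + (4914 * n ^ 2 - 971 * n + 44)) *
      ((-14742 * n ^ 2 + 2211 * n - 86) + (-4914 * n ^ 2 + 485 * n - 8))) =
      (19656 * n ^ 2 - 2912 * n + 110) ^ 2 - (-216 * n + 16) ^ 2 := by ring
  refine ⟨14742 * n ^ 2 - 2157 * n + 82, 4914 * n ^ 2 - 971 * n + 44,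
    -14742 * n ^ 2 + 2211 * n - 86, -4914 * n ^ 2 + 485 * n - 8, by ring, by rw [e]; exact h.1,
    by rw [e]; exact h.2, ?_⟩
  left
  intro hc
  nlinarith [sq_nonneg (27 * n - 2), sq_nonneg n]

end Pool.Agent.K4H52.FC
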