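import Mathlib

/-!
# Sums of four cubes: infinitely many representations

The basic lemma: a representation `a^3+b^3+c^3+d^3 = m` such that `-(a+b)(c+d)` is positive and not
a square, and `a ≠ b` or `c ≠ d`, gives infinitely many (Pell's equation; Schinzel, Sierpinski, Mordell).
-/

set_option autoImplicit false

namespace Pool.Agent.K4H52.FC

/-- all the representations of `m` as a sum of four integer cubes -/
def S (m : ℤ) : Set (ℤ × ℤ × ℤ × ℤ) :=
  {v | v.1 ^ 3 + v.2.1 ^ 3 + v.2.2.1 ^ 3 + v.2.2.2 ^ 3 = m}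

/-- `m` has a representation from which Pell's equation produces infinitely many -/
def Good (m : ℤ) : Prop := ∃ a b c d : ℤ, a ^ 3 + b ^ 3 + c ^ 3 + d ^ 3 = m ∧
  0 < -((a + b) * (c + d)) ∧ ¬ IsSquare (-((a + b) * (c + d))) ∧ (a ≠ b ∨ c ≠ d)

lemma pell {D : ℤ} (h : 0 < D) (hs : ¬ IsSquare D) :
    ∃ U V : ℤ, 1 ≤ U ∧ 1 ≤ V ∧ U ^ 2 + U - D * V ^ 2 = 0 := by
  obtain ⟨u, v, huv, hv⟩ := Pell.exists_of_not_isSquare h hs
  have hv2 : 1 ≤ v ^ 2 := by have : 0 < v ^ 2 := by positivity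
                             omega
  have hu : u ≠ 0 := by
    rintro rfl
    nlinarith
  refine ⟨D * v ^ 2, |u * v|, by nlinarith, ?_, ?_⟩
  · have : 0 < |u * v| := abs_pos.mpr (mul_ne_zero hu hv)
    omega
  · rw [sq_abs]
    linear_combination (-D * v ^ 2) * huv

/-- the main step, for `c + d < 0 < a + b` and ordered pairs -/
lemma grow {m s t : ℤ} (hs : 0 < s) (ht : t < 0) (hsq : ¬ IsSquare (-(s * t)))
    (h0 : ∃ a b c d : ℤ, a ^ 3 + b ^ 3 + c ^ 3 + d ^ 3 = m ∧ a + b = s ∧ c + d = t ∧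
      0 ≤ a - b ∧ 0 ≤ c - d ∧ 1 ≤ (a - b) + (c - d)) (n : ℕ) :
    ∃ a b c d : ℤ, a ^ 3 + b ^ 3 + c ^ 3 + d ^ 3 = m ∧ a + b = s ∧ c + d = t ∧
      0 ≤ a - b ∧ 0 ≤ c - d ∧ (n : ℤ) + 1 ≤ (a - b) + (c - d) := by
  obtain ⟨U, V, hU, hV, hUV⟩ := pell (D := -(s * t)) (by nlinarith) hsq
  induction n with
  | zero => simpa using h0
  | succ n ih =>
    obtain ⟨a, b, c, d, h, hab, hcd, hx, hy, hn⟩ := ih
    refine ⟨a + U * (a - b) - t * V * (c - d), b - U * (a - b) + t * V * (c - d),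
      c + U * (c - d) + s * V * (a - b), d - U * (c - d) - s * V * (a - b), ?_, by linarith,
      by linarith, ?_, ?_, ?_⟩
    · subst hab hcd
      linear_combination h + 3 * ((a + b) * (a - b) ^ 2 + (c + d) * (c - d) ^ 2) * hUV
    · have h1 : 0 ≤ (-t) * V * (c - d) := by
        apply mul_nonneg (mul_nonneg (by linarith) (by linarith)) hy
      have h2 : 0 ≤ U * (a - b) := mul_nonneg (by linarith) hx
      nlinarith
    · have h1 : 0 ≤ s * V * (a - b) := by
        apply mul_nonneg (mul_nonneg (by linarith) (by linarith)) hx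
      have h2 : 0 ≤ U * (c - d) := mul_nonneg (by linarith) hy
      nlinarith
    · have h1 : 0 ≤ (-t) * V * (c - d) := by
        apply mul_nonneg (mul_nonneg (by linarith) (by linarith)) hy
      have h2 : 0 ≤ s * V * (a - b) := by
        apply mul_nonneg (mul_nonneg (by linarith) (by linarith)) hx
      have h3 : (a - b) ≤ U * (a - b) := le_mul_of_one_le_left hx hU
      have h4 : (c - d) ≤ U * (c - d) := le_mul_of_one_le_left hy hU
      push_cast
      nlinarith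

lemma infinite_of_good_aux {m s t : ℤ} (hs : 0 < s) (ht : t < 0) (hsq : ¬ IsSquare (-(s * t)))
    (h0 : ∃ a b c d : ℤ, a ^ 3 + b ^ 3 + c ^ 3 + d ^ 3 = m ∧ a + b = s ∧ c + d = t ∧
      0 ≤ a - b ∧ 0 ≤ c - d ∧ 1 ≤ (a - b) + (c - d)) : (S m).Infinite := by
  intro hfin
  have hb := (hfin.image (fun v => (v.1 - v.2.1) + (v.2.2.1 - v.2.2.2))).bddAbove
  obtain ⟨B, hB⟩ := hb
  obtain ⟨a, b, c, d, h, hab, hcd, hx, hy, hn⟩ := grow hs ht hsq h0 B.toNat
  have h1 := hB ⟨(a, b, c, d), h, rfl⟩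
  simp only at h1
  have h2 := Int.self_le_toNat B
  omega

/-- ordering of the two members of a pair -/
lemma order_pair (a b : ℤ) : ∃ a' b' : ℤ, a' ^ 3 + b' ^ 3 = a ^ 3 + b ^ 3 ∧ a' + b' = a + b ∧
    0 ≤ a' - b' ∧ (a ≠ b → 1 ≤ a' - b') := by
  rcases le_total b a with h | h
  · exact ⟨a, b, rfl, rfl, by linarith, fun hne => by omega⟩
  · exact ⟨b, a, by ring, by ring, by linarith, fun hne => by omega⟩

theorem infinite_of_good {m : ℤ} (h : Good m) : (S m).Infinite := by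
  obtain ⟨a, b, c, d, h, hpos, hsq, hne⟩ := h
  obtain ⟨a', b', h1, h2, h3, h4⟩ := order_pair a b
  obtain ⟨c', d', k1, k2, k3, k4⟩ := order_pair c d
  have hsum : 1 ≤ (a' - b') + (c' - d') := by
    rcases hne with hne | hne
    · have := h4 hne; linarith
    · have := k4 hne; linarith
  rcases lt_trichotomy (a + b) 0 with hs | hs | hs
  · have ht : 0 < c + d := by
      by_contra hc
      nlinarith
    refine infinite_of_good_aux ht hs (by rwa [mul_comm]) ⟨c', d', a', b', by linarith, k2, h2, k3,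
      h3, by linarith⟩
  · rw [hs] at hpos; simp at hpos
  · have ht : c + d < 0 := by
      by_contra hc
      nlinarith
    exact infinite_of_good_aux hs ht hsq ⟨a', b', c', d', by linarith, h2, k2, h3, k3, hsum⟩

lemma Good.neg {m : ℤ} (h : Good m) : Good (-m) := by
  obtain ⟨a, b, c, d, h, hpos, hsq, hne⟩ := h
  have e : -((-a + -b) * (-c + -d)) = -((a + b) * (c + d)) := by ring
  refine ⟨-a, -b, -c, -d, by linear_combination -h, by rwa [e], by rwa [e], ?_⟩
  rcases hne with h | h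
  · left; exact fun h' => h (by linarith)
  · right; exact fun h' => h (by linarith)

/-- a difference of two squares with a small second one is not a square -/
lemma ns1 {D T : ℤ} (hT : T ≠ 0) (h : T ^ 2 + 1 < 2 * D) :
    0 < D ^ 2 - T ^ 2 ∧ ¬ IsSquare (D ^ 2 - T ^ 2) := by
  have hT2 : 1 ≤ T ^ 2 := by have : 0 < T ^ 2 := by positivity
                             omega
  have hD : 2 ≤ D := by omega
  refine ⟨by nlinarith, ?_⟩
  rintro ⟨r, hr⟩
  have h1 : |r| < D := by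
    apply abs_lt_of_sq_lt_sq _ (by omega)
    nlinarith
  have h2 : r * r = |r| * |r| := (abs_mul_abs_self r).symm
  have h3 : 0 ≤ |r| := abs_nonneg r
  nlinarith

lemma ns1' {D T : ℤ} (hD : 2 ≤ D) (h0 : 2 * D - 1 < T ^ 2) (h : T ^ 2 < 4 * D - 4) :
    0 < D ^ 2 - T ^ 2 ∧ ¬ IsSquare (D ^ 2 - T ^ 2) := by
  have h4 : 0 < D ^ 2 - T ^ 2 := by nlinarith [sq_nonneg (D - 2)]
  refine ⟨h4, ?_⟩
  rintro ⟨r, hr⟩
  have h2 : r * r = |r| * |r| := (abs_mul_abs_self r).symm
  have h3 : 0 ≤ |r| := abs_nonneg r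
  have h5 : |r| < D - 1 := by
    by_contra hc
    push_neg at hc
    nlinarith
  have h6 : D - 2 < |r| := by
    by_contra hc
    push_neg at hc
    nlinarith
  omega

lemma ns {P Q : ℤ} (h0 : P + Q ≠ 0) (h : (P + Q) ^ 2 + 1 < 2 * |P - Q|) :
    0 < -(P * Q) ∧ ¬ IsSquare (-(P * Q)) := by
  obtain ⟨h1, h2⟩ := ns1 h0 h
  have e : |P - Q| ^ 2 - (P + Q) ^ 2 = 4 * -(P * Q) := by
    rw [sq_abs]; ring
  rw [e] at h1 h2
  refine ⟨by linarith, ?_⟩
  rintro ⟨r, hr⟩
  exact h2 ⟨2 * r, by rw [hr]; ring⟩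

end Pool.Agent.K4H52.FC
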