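import Pool.Agent.K4H52.FC.Core

set_option autoImplicit false

namespace Pool.Agent.K4H52.FC

lemma cube_mod (a : ℤ) : (a % 3 = 0 ∧ a ^ 3 % 9 = 0) ∨ (a % 3 = 1 ∧ a ^ 3 % 9 = 1) ∨
    (a % 3 = 2 ∧ a ^ 3 % 9 = 8) := by
  have h : a % 9 = 0 ∨ a % 9 = 1 ∨ a % 9 = 2 ∨ a % 9 = 3 ∨ a % 9 = 4 ∨ a % 9 = 5 ∨ a % 9 = 6 ∨
    a % 9 = 7 ∨ a % 9 = 8 := by omega
  rcases h with h | h | h | h | h | h | h | h | h
  · left; exact ⟨by omega, by simp [pow_succ, Int.mul_emod, h]⟩
  · right; left; exact ⟨by omega, by simp [pow_succ, Int.mul_emod, h]⟩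
  · right; right; exact ⟨by omega, by simp [pow_succ, Int.mul_emod, h]⟩
  · left; exact ⟨by omega, by simp [pow_succ, Int.mul_emod, h]⟩
  · right; left; exact ⟨by omega, by simp [pow_succ, Int.mul_emod, h]⟩
  · right; right; exact ⟨by omega, by simp [pow_succ, Int.mul_emod, h]⟩
  · left; exact ⟨by omega, by simp [pow_succ, Int.mul_emod, h]⟩
  · right; left; exact ⟨by omega, by simp [pow_succ, Int.mul_emod, h]⟩
  · right; right; exact ⟨by omega, by simp [pow_succ, Int.mul_emod, h]⟩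

lemma nonsq_of_mod {k : ℤ} (h : k % 3 = 2) : ¬ IsSquare k := by
  rintro ⟨r, rfl⟩
  have : r % 3 = 0 ∨ r % 3 = 1 ∨ r % 3 = 2 := by omega
  rcases this with h' | h' | h' <;> simp [Int.mul_emod, h'] at h

lemma good_of_mixed {m a b c d : ℤ} (h9 : m % 9 = 4 ∨ m % 9 = 5)
    (h : a ^ 3 + b ^ 3 + c ^ 3 + d ^ 3 = m) (hneg : (a + b) * (c + d) < 0)
    (hne : a ≠ b ∨ c ≠ d) : Good m := by
  refine ⟨a, b, c, d, h, by linarith, nonsq_of_mod ?_, hne⟩
  have ha := cube_mod a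
  have hb := cube_mod b
  have hc := cube_mod c
  have hd := cube_mod d
  generalize a ^ 3 = A at *
  generalize b ^ 3 = B at *
  generalize c ^ 3 = C at *
  generalize d ^ 3 = D at *
  have key : ((a + b) % 3 = 2 ∧ (c + d) % 3 = 2) ∨ ((a + b) % 3 = 1 ∧ (c + d) % 3 = 1) := by
    omega
  have h3 : ((a + b) * (c + d)) % 3 = 1 := by
    rcases key with ⟨h1, h2⟩ | ⟨h1, h2⟩ <;> rw [Int.mul_emod, h1, h2] <;> norm_num
  omega

lemma cubes_nonneg {b c : ℤ} (h : 0 ≤ b + c) : 0 ≤ b ^ 3 + c ^ 3 := by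
  have e : b ^ 3 + c ^ 3 = (b + c) * (b ^ 2 - b * c + c ^ 2) := by ring
  rw [e]
  exact mul_nonneg h (by nlinarith [sq_nonneg (b - c), sq_nonneg b, sq_nonneg c])

lemma two_cubes {m c d : ℤ} (h9 : m % 9 = 4 ∨ m % 9 = 5) (h : c ^ 3 + d ^ 3 = m) : False := by
  have hc := cube_mod c
  have hd := cube_mod d
  generalize c ^ 3 = C at *
  generalize d ^ 3 = D at *
  omega

lemma dbl {a c : ℤ} (ha : 0 < a) (hc : 0 < a + c) (hc' : c + c < 0) :
    a ≤ 2 * a ^ 3 + 2 * c ^ 3 := by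
  have e : 2 * a ^ 3 + 2 * c ^ 3 = (a + c) * (2 * (a ^ 2 - a * c + c ^ 2)) := by ring
  rw [e]
  have h1 : a ≤ 2 * (a ^ 2 - a * c + c ^ 2) := by nlinarith [sq_nonneg c]
  have h2 : 0 ≤ 2 * (a ^ 2 - a * c + c ^ 2) := by linarith
  nlinarith

lemma max_pos {m : ℤ} (h9 : m % 9 = 4 ∨ m % 9 = 5)
    (H : ∀ a b c d : ℤ, a ^ 3 + b ^ 3 + c ^ 3 + d ^ 3 = m → (a + b) * (c + d) < 0 →
      a = b ∧ c = d) {a b c d : ℤ} (h : a ^ 3 + b ^ 3 + c ^ 3 + d ^ 3 = m) (ha : 0 < a)
    (hb : -a ≤ b) (hc : -a ≤ c) (hd : -a ≤ d) : a ≤ m := by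
  have hb' : 0 < a + b := by
    rcases lt_or_eq_of_le (show 0 ≤ a + b by linarith) with h' | h'
    · exact h'
    · exfalso
      have : b = -a := by linarith
      subst this
      exact two_cubes (c := c) (d := d) h9 (by linear_combination h)
  have hc' : 0 < a + c := by
    rcases lt_or_eq_of_le (show 0 ≤ a + c by linarith) with h' | h'
    · exact h'
    · exfalso
      have : c = -a := by linarith
      subst this
      exact two_cubes (c := b) (d := d) h9 (by linear_combination h)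
  have hd' : 0 < a + d := by
    rcases lt_or_eq_of_le (show 0 ≤ a + d by linarith) with h' | h'
    · exact h'
    · exfalso
      have : d = -a := by linarith
      subst this
      exact two_cubes (c := b) (d := c) h9 (by linear_combination h)
  by_cases h1 : c + d < 0
  · obtain ⟨e1, e2⟩ := H a b c d h (by nlinarith)
    subst e1 e2
    have := dbl ha hc' h1
    linarith
  by_cases h2 : b + d < 0
  · obtain ⟨e1, e2⟩ := H a c b d (by linarith) (by nlinarith)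
    subst e1 e2
    have := dbl ha hb' h2
    linarith
  by_cases h3 : b + c < 0
  · obtain ⟨e1, e2⟩ := H a d b c (by linarith) (by nlinarith)
    subst e1 e2
    have := dbl ha hb' h3
    linarith
  have k1 := cubes_nonneg (b := c) (c := d) (by linarith)
  have k2 := cubes_nonneg (b := b) (c := d) (by linarith)
  have k3 := cubes_nonneg (b := b) (c := c) (by linarith)
  have k4 : a ≤ a ^ 3 := le_self_pow₀ (by linarith) (by norm_num)
  linarith

lemma max_abs {m : ℤ} (h9 : m % 9 = 4 ∨ m % 9 = 5)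
    (H : ∀ a b c d : ℤ, a ^ 3 + b ^ 3 + c ^ 3 + d ^ 3 = m → (a + b) * (c + d) < 0 →
      a = b ∧ c = d) {a b c d : ℤ} (h : a ^ 3 + b ^ 3 + c ^ 3 + d ^ 3 = m)
    (hb : |b| ≤ |a|) (hc : |c| ≤ |a|) (hd : |d| ≤ |a|) : |a| ≤ |m| := by
  rcases lt_trichotomy a 0 with ha | ha | ha
  · have := max_pos (m := -m) (a := -a) (b := -b) (c := -c) (d := -d) (by omega) (by
      intro a b c d h1 h2
      obtain ⟨e1, e2⟩ := H (-a) (-b) (-c) (-d) (by linear_combination -h1) (by nlinarith)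
      exact ⟨by linarith, by linarith⟩) (by linear_combination -h) (by linarith)
      (by rw [abs_of_neg ha] at hb; have := le_abs_self b; linarith)
      (by rw [abs_of_neg ha] at hc; have := le_abs_self c; linarith)
      (by rw [abs_of_neg ha] at hd; have := le_abs_self d; linarith)
    rw [abs_of_neg ha]
    exact this.trans (neg_le_abs m)
  · subst ha; simp
  · have := max_pos h9 H h ha
      (by rw [abs_of_pos ha] at hb; have := neg_abs_le b; linarith)
      (by rw [abs_of_pos ha] at hc; have := neg_abs_le c; linarith)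
      (by rw [abs_of_pos ha] at hd; have := neg_abs_le d; linarith)
    rw [abs_of_pos ha]
    exact this.trans (le_abs_self m)

lemma all_abs {m : ℤ} (h9 : m % 9 = 4 ∨ m % 9 = 5)
    (H : ∀ a b c d : ℤ, a ^ 3 + b ^ 3 + c ^ 3 + d ^ 3 = m → (a + b) * (c + d) < 0 →
      a = b ∧ c = d) {a b c d : ℤ} (h : a ^ 3 + b ^ 3 + c ^ 3 + d ^ 3 = m) :
    |a| ≤ |m| ∧ |b| ≤ |m| ∧ |c| ≤ |m| ∧ |d| ≤ |m| := by
  have key : (|b| ≤ |a| ∧ |c| ≤ |a| ∧ |d| ≤ |a|) ∨ (|a| ≤ |b| ∧ |c| ≤ |b| ∧ |d| ≤ |b|) ∨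
      (|a| ≤ |c| ∧ |b| ≤ |c| ∧ |d| ≤ |c|) ∨ (|a| ≤ |d| ∧ |b| ≤ |d| ∧ |c| ≤ |d|) := by
    generalize |a| = A
    generalize |b| = B
    generalize |c| = C
    generalize |d| = D
    omega
  rcases key with ⟨h1, h2, h3⟩ | ⟨h1, h2, h3⟩ | ⟨h1, h2, h3⟩ | ⟨h1, h2, h3⟩
  · have := max_abs h9 H h h1 h2 h3
    exact ⟨this, by linarith, by linarith, by linarith⟩
  · have := max_abs h9 H (a := b) (b := a) (c := c) (d := d) (by linarith) h1 h2 h3
    exact ⟨by linarith, this, by linarith, by linarith⟩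
  · have := max_abs h9 H (a := c) (b := a) (c := b) (d := d) (by linarith) h1 h2 h3
    exact ⟨by linarith, by linarith, this, by linarith⟩
  · have := max_abs h9 H (a := d) (b := a) (c := b) (d := c) (by linarith) h1 h2 h3
    exact ⟨by linarith, by linarith, by linarith, this⟩

theorem crit {m : ℤ} (h9 : m % 9 = 4 ∨ m % 9 = 5) : (S m).Infinite ↔
    ∃ a b c d : ℤ, (a, b, c, d) ∈ S m ∧ (a + b) * (c + d) < 0 ∧ (a ≠ b ∨ c ≠ d) := by
  constructor
  · intro hinf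
    by_contra hcon
    push_neg at hcon
    apply hinf
    have H : ∀ a b c d : ℤ, a ^ 3 + b ^ 3 + c ^ 3 + d ^ 3 = m → (a + b) * (c + d) < 0 →
        a = b ∧ c = d := fun a b c d h1 h2 => hcon a b c d h1 h2
    have hI := Set.finite_Icc (-|m|) |m|
    refine (hI.prod (hI.prod (hI.prod hI))).subset ?_
    rintro ⟨a, b, c, d⟩ h
    obtain ⟨h1, h2, h3, h4⟩ := all_abs h9 H (a := a) (b := b) (c := c) (d := d) h
    exact ⟨abs_le.mp h1, abs_le.mp h2, abs_le.mp h3, abs_le.mp h4⟩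
  · rintro ⟨a, b, c, d, h, hneg, hne⟩
    exact infinite_of_good (good_of_mixed h9 h hneg hne)

end Pool.Agent.K4H52.FC
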