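import Pool.Agent.K4H52.FC.Cls

set_option autoImplicit false

namespace Pool.Agent.K4H52.FC

/-- representations of `216 n + 92` for `22 ≤ n ≤ 85` -/
def tbl : List (ℤ × ℤ × ℤ × ℤ) := [(-98, -13, 94, 49), (-95, -12, 91, 48), (-92, -11, 88, 47), (-89, -10, 85, 46),
  (-86, -9, 82, 45), (-83, -8, 79, 44), (-80, -7, 76, 43), (-77, -6, 73, 42),
  (-74, -5, 70, 41), (-71, -4, 67, 40), (-68, -3, 64, 39), (-65, -2, 61, 38),
  (-62, -1, 58, 37), (-59, 0, 55, 36), (-56, 1, 52, 35), (-53, 2, 49, 34),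
  (-50, 3, 46, 33), (-47, 4, 43, 32), (-44, 5, 40, 31), (-41, 6, 37, 30),
  (-38, 7, 34, 29), (-35, 8, 31, 28), (-32, 9, 28, 27), (-29, 10, 25, 26),
  (-26, 11, 22, 25), (-23, 12, 19, 24), (-20, 13, 16, 23), (-17, 14, 13, 22),
  (-4, 1, 16, 19), (1, -14, 3, 24), (-6, -2, -29, 33), (-2, 0, -29, 33),
  (-6, -5, -63, 64), (-6, -3, -26, 31), (-5, -63, 6, 64), (-3, -26, 6, 31),
  (10, 23, -14, 13), (13, 24, -17, 12), (16, 25, -20, 11), (19, 26, -23, 10),
  (22, 27, -26, 9), (25, 28, -29, 8), (28, 29, -32, 7), (31, 30, -35, 6),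
  (34, 31, -38, 5), (37, 32, -41, 4), (40, 33, -44, 3), (43, 34, -47, 2),
  (46, 1, -50, 35), (49, 36, -53, 0), (52, 37, -56, -1), (55, 38, -59, -2),
  (58, 39, -62, -3), (61, 40, -65, -4), (64, 41, -68, -5), (67, 42, -71, -6),
  (70, 43, -74, -7), (73, 44, -77, -8), (76, 45, -80, -9), (79, 46, -83, -10),
  (82, 47, -86, -11), (85, 48, -89, -12), (88, 49, -92, -13), (91, 50, -95, -14)]

lemma tbl_ok : ∀ n ∈ Finset.Icc (22 : ℤ) 85, ∃ v ∈ tbl,
    v.1 ^ 3 + v.2.1 ^ 3 + v.2.2.1 ^ 3 + v.2.2.2 ^ 3 = 216 * n + 92 ∧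
    0 < -((v.1 + v.2.1) * (v.2.2.1 + v.2.2.2)) ∧
    ¬ IsSquare (-((v.1 + v.2.1) * (v.2.2.1 + v.2.2.2))) ∧ (v.1 ≠ v.2.1 ∨ v.2.2.1 ≠ v.2.2.2) := by
  decide +kernel

/-- `216 n + 92` -/
lemma good92 (n : ℤ) : Good (216 * n + 92) := by
  by_cases hn : n ∈ Finset.Icc (22 : ℤ) 85
  · obtain ⟨v, -, h1, h2, h3, h4⟩ := tbl_ok n hn
    exact ⟨v.1, v.2.1, v.2.2.1, v.2.2.2, h1, h2, h3, h4⟩
  have hn' : n < 22 ∨ 85 < n := by
    by_contra hc
    push_neg at hc
    exact hn (Finset.mem_Icc.mpr hc)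
  have h := ns_even (P := (3 * n - 164) + (n - 35)) (Q := (-3 * n + 160) + (-n + 71))
    (D := 4 * n - 215) (T := 16) (by ring) (by ring) (by norm_num) (by
    rcases le_total 0 (4 * n - 215) with h | h
    · rw [abs_of_nonneg h]; omega
    · rw [abs_of_nonpos h]; omega)
  exact ⟨3 * n - 164, n - 35, -3 * n + 160, -n + 71, by ring, h.1, h.2, by omega⟩

theorem good_main (m : ℤ) (h9 : m % 9 ≠ 4 ∧ m % 9 ≠ 5) (h108 : m % 108 ≠ 38 ∧ m % 108 ≠ 70) :
    Good m := by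
  have key : m % 12 = 0 ∨ m % 12 = 6 ∨ m % 6 = 3 ∨ m % 18 = 1 ∨ m % 18 = 17 ∨ m % 18 = 7 ∨
      m % 18 = 11 ∨ m % 18 = 8 ∨ m % 18 = 10 ∨ m % 54 = 2 ∨ m % 54 = 52 ∨ m % 54 = 20 ∨
      m % 54 = 34 ∨ m % 216 = 92 ∨ m % 216 = 124 ∨ m % 216 = 200 ∨ m % 216 = 16 := by omega
  rcases key with h | h | h | h | h | h | h | h | h | h | h | h | h | h | h | h | h
  · have := good12 (m / 12); rwa [show 12 * (m / 12) = m by omega] at this
  · have := good6 (m / 12); rwa [show 6 * (2 * (m / 12) + 1) = m by omega] at this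
  · have := good3 (m / 6); rwa [show 6 * (m / 6) + 3 = m by omega] at this
  · have := good1 (m / 18); rwa [show 18 * (m / 18) + 1 = m by omega] at this
  · have := (good1 ((-m) / 18)).neg; rwa [show -(18 * ((-m) / 18) + 1) = m by omega] at this
  · have := good7 (m / 18); rwa [show 18 * (m / 18) + 7 = m by omega] at this
  · have := (good7 ((-m) / 18)).neg; rwa [show -(18 * ((-m) / 18) + 7) = m by omega] at this
  · have := good8 (m / 18); rwa [show 18 * (m / 18) + 8 = m by omega] at this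
  · have := (good8 ((-m) / 18)).neg; rwa [show -(18 * ((-m) / 18) + 8) = m by omega] at this
  · have := good2 (m / 54); rwa [show 54 * (m / 54) + 2 = m by omega] at this
  · have := (good2 ((-m) / 54)).neg; rwa [show -(54 * ((-m) / 54) + 2) = m by omega] at this
  · have := good20 (m / 54); rwa [show 54 * (m / 54) + 20 = m by omega] at this
  · have := (good20 ((-m) / 54)).neg; rwa [show -(54 * ((-m) / 54) + 20) = m by omega] at this
  · have := good92 (m / 216); rwa [show 216 * (m / 216) + 92 = m by omega] at this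
  · have := (good92 ((-m) / 216)).neg; rwa [show -(216 * ((-m) / 216) + 92) = m by omega] at this
  · have := good16 (m / 216 + 1); rwa [show 216 * (m / 216 + 1) - 16 = m by omega] at this
  · have := (good16 ((-m) / 216 + 1)).neg
    rwa [show -(216 * ((-m) / 216 + 1) - 16) = m by omega] at this

end Pool.Agent.K4H52.FC
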